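import Mathlib

/-!
# Random embeddings into universal sequences of ordered graphs

For every universal sequence `(G_n)` of ordered graphs and every ordered graph `H` there are random
embeddings `Φ_n : H → G_n` for which the largest probability with which an edge of `G_n` is hit is
`O(1 / e(G_n))`; as `e(G_n)` tends to infinity, the difference between this probability and
`e(H) / e(G_n)` tends to zero.
-/

set_option autoImplicit false

namespace Pool.Agent.Results.MP_37b92f_co.UniversalEmbeddings

open Filter Topology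

/-- An ordered graph: a simple graph on `{0, ..., n-1}` with the natural order. -/
structure OGraph where
  /-- the number of vertices -/
  n : ℕ
  /-- the graph -/
  graph : SimpleGraph (Fin n)

/-- The number of edges. -/
noncomputable def OGraph.e (G : OGraph) : ℕ := G.graph.edgeSet.ncard

/-- The subgraph `G'` of `G` contains no copy of `F`: there is no injective order-preserving map
from the vertices of `F` to the vertices of `G'` that sends edges to edges of `G'`. -/
def IsFree (F G : OGraph) (G' : G.graph.Subgraph) : Prop :=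
  ¬ ∃ φ : Fin F.n → Fin G.n, StrictMono φ ∧ (∀ v, φ v ∈ G'.verts) ∧
    ∀ u v, F.graph.Adj u v → G'.Adj (φ u) (φ v)

/-- `ρ_<(F, G)`: the largest value of `e(G') / e(G)` over the `F`-free subgraphs `G'` of `G`. -/
noncomputable def rho (F G : OGraph) : ℝ :=
  sSup {x : ℝ | ∃ G' : G.graph.Subgraph, IsFree F G G' ∧ x = (G'.edgeSet.ncard : ℝ) / G.e}

/-- The relative Turán density `ρ_<(F)`: the infimum of `ρ_<(F, G)` over all `G` with an edge. -/
noncomputable def relDensity (F : OGraph) : ℝ :=
  sInf {x : ℝ | ∃ G : OGraph, 1 ≤ G.e ∧ x = rho F G}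

/-- A universal sequence of ordered graphs. -/
def Universal (G : ℕ → OGraph) : Prop :=
  (∀ n, 1 ≤ (G n).e) ∧ ∀ F : OGraph, Tendsto (fun n => rho F (G n)) atTop (𝓝 (relDensity F))

/-- The embeddings of `H` into `G`. -/
def Emb (H G : OGraph) : Type :=
  {φ : Fin H.n → Fin G.n // StrictMono φ ∧ ∀ u v, H.graph.Adj u v → G.graph.Adj (φ u) (φ v)}

/-- The edge set `φ(H)` of the image of an embedding. -/
def Emb.image {H G : OGraph} (φ : Emb H G) : Set (Sym2 (Fin G.n)) :=
  Sym2.map φ.1 '' H.graph.edgeSet

/-- The probability that the random embedding `Φ` hits `e`. -/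
noncomputable def hitProb {H G : OGraph} (Φ : PMF (Emb H G)) (e : Sym2 (Fin G.n)) : ℝ :=
  (Φ.toOuterMeasure {φ | e ∈ φ.image}).toReal

/-- The largest probability with which an edge of `G` is hit. -/
noncomputable def maxProb {H G : OGraph} (Φ : PMF (Emb H G)) : ℝ :=
  sSup {x : ℝ | ∃ e ∈ G.graph.edgeSet, x = hitProb Φ e}

/-! ### Basic facts -/

theorem sub_ncard_le {G : OGraph} (G' : G.graph.Subgraph) : G'.edgeSet.ncard ≤ G.e :=
  Set.ncard_le_ncard G'.edgeSet_subset (Set.toFinite _)

theorem rho_bdd (F G : OGraph) :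
    BddAbove {x : ℝ | ∃ G' : G.graph.Subgraph, IsFree F G G' ∧
      x = (G'.edgeSet.ncard : ℝ) / G.e} := by
  refine ⟨1, ?_⟩
  rintro x ⟨G', _, rfl⟩
  apply div_le_one_of_le₀ _ (by positivity)
  exact_mod_cast sub_ncard_le G'

theorem rho_nonneg (F G : OGraph) : 0 ≤ rho F G := by
  apply Real.sSup_nonneg
  rintro x ⟨G', _, rfl⟩
  positivity

theorem le_rho {F G : OGraph} (G' : G.graph.Subgraph) (h : IsFree F G G') :
    (G'.edgeSet.ncard : ℝ) / G.e ≤ rho F G :=
  le_csSup (rho_bdd F G) ⟨G', h, rfl⟩

/-- The complete ordered graph. -/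
def complete (m : ℕ) : OGraph := ⟨m, ⊤⟩

theorem e_pos_of_adj {G : OGraph} {u v : Fin G.n} (h : G.graph.Adj u v) : 0 < G.e := by
  apply (Set.ncard_pos (Set.toFinite _)).2
  exact ⟨s(u, v), h⟩

theorem complete_adj {m : ℕ} {u v : Fin m} (h : u ≠ v) : (complete m).graph.Adj u v := h

/-- `ρ_<(F) < 1` as soon as `F` has an edge. -/
theorem relDensity_lt_one {F : OGraph} (hF : 0 < F.e) : relDensity F < 1 := by
  obtain ⟨e, he⟩ := (Set.ncard_pos (Set.toFinite _)).1 hF
  induction e with
  | h a b =>
  have hab : F.graph.Adj a b := he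
  have hne : a ≠ b := hab.ne
  have hKe : 0 < (complete F.n).e := e_pos_of_adj (complete_adj hne)
  have h1 : rho F (complete F.n) ≤ 1 - 1 / (complete F.n).e := by
    apply Real.sSup_le
    · rintro x ⟨G', hG', rfl⟩
      have hlt : G'.edgeSet.ncard < (complete F.n).e := by
        by_contra hcon
        push Not at hcon
        have heq : G'.edgeSet = (complete F.n).graph.edgeSet :=
          Set.eq_of_subset_of_ncard_le G'.edgeSet_subset hcon (Set.toFinite _)
        have hadj : ∀ u v : Fin F.n, u ≠ v → G'.Adj u v := by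
          intro u v huv
          have h0 : s(u, v) ∈ (complete F.n).graph.edgeSet := complete_adj huv
          rw [← heq] at h0
          exact h0
        apply hG'
        refine ⟨id, strictMono_id, ?_, ?_⟩
        · intro v
          by_cases hva : v = a
          · exact (hadj v b (by rw [hva]; exact hne)).fst_mem
          · exact (hadj v a hva).fst_mem
        · intro u v huv
          exact hadj u v huv.ne
      rw [div_le_iff₀ (by exact_mod_cast hKe), sub_mul, one_mul, one_div,
        inv_mul_cancel₀ (by exact_mod_cast hKe.ne')]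
      have : (G'.edgeSet.ncard : ℝ) + 1 ≤ (complete F.n).e := by exact_mod_cast hlt
      linarith
    · have : (1 : ℝ) / (complete F.n).e ≤ 1 := by
        rw [div_le_one (by exact_mod_cast hKe)]
        exact_mod_cast hKe
      linarith
  have h2 : relDensity F ≤ rho F (complete F.n) :=
    csInf_le ⟨0, by rintro x ⟨G, _, rfl⟩; exact rho_nonneg F G⟩ ⟨complete F.n, hKe, rfl⟩
  have h3 : (0 : ℝ) < 1 / (complete F.n).e := by
    have : (0 : ℝ) < (complete F.n).e := by exact_mod_cast hKe
    positivity
  linarith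

/-- If `ρ_<(F, G) < 1` then `F` embeds into `G`. -/
theorem exists_emb {F G : OGraph} (hG : 1 ≤ G.e) (h : rho F G < 1) : Nonempty (Emb F G) := by
  by_contra hcon
  have hfree : IsFree F G ⊤ := by
    rintro ⟨φ, h1, _, h3⟩
    exact hcon ⟨⟨φ, h1, fun u v huv => by simpa using h3 u v huv⟩⟩
  have h2 := le_rho (⊤ : G.graph.Subgraph) hfree
  rw [SimpleGraph.Subgraph.edgeSet_top] at h2
  have h4 : ((G.graph.edgeSet.ncard : ℕ) : ℝ) / G.e = 1 := by
    apply div_self
    have : G.e ≠ 0 := by omega
    exact_mod_cast this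
  rw [h4] at h2
  linarith

theorem Emb.image_subset {H G : OGraph} (φ : Emb H G) : φ.image ⊆ G.graph.edgeSet := by
  rintro _ ⟨e, he, rfl⟩
  induction e with
  | h a b => exact φ.2.2 a b he

theorem Emb.ncard_image {H G : OGraph} (φ : Emb H G) : φ.image.ncard = H.e :=
  Set.ncard_image_of_injective _ (Sym2.map.injective φ.2.1.injective)

theorem emb_e_le {H G : OGraph} (φ : Emb H G) : H.e ≤ G.e := by
  rw [← φ.ncard_image]
  exact Set.ncard_le_ncard φ.image_subset (Set.toFinite _)

theorem emb_n_le {H G : OGraph} (φ : Emb H G) : H.n ≤ G.n := by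
  simpa using Fintype.card_le_of_injective _ φ.2.1.injective

theorem complete_e (m : ℕ) : m ≤ (complete (m + 2)).e := by
  classical
  have h : (complete (m + 2)).e = (m + 2).choose 2 := by
    unfold OGraph.e complete
    rw [← SimpleGraph.coe_edgeFinset, Set.ncard_coe_finset, SimpleGraph.card_edgeFinset_top_eq_card_choose_two]
    simp
  rw [h, Nat.choose_two_right]
  have : m * 2 ≤ (m + 2) * (m + 2 - 1) := by
    have : m + 2 - 1 = m + 1 := by omega
    rw [this]
    nlinarith
  omega

/-- In a universal sequence every complete ordered graph embeds eventually. -/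
theorem eventually_complete {G : ℕ → OGraph} (hG : Universal G) (m : ℕ) :
    ∀ᶠ n in atTop, Nonempty (Emb (complete (m + 2)) (G n)) := by
  have hpos : 0 < (complete (m + 2)).e :=
    e_pos_of_adj (G := complete (m + 2)) (u := (0 : Fin (m + 2))) (v := (1 : Fin (m + 2)))
      (by simp [complete])
  have h := hG.2 (complete (m + 2))
  filter_upwards [h.eventually_lt_const (relDensity_lt_one hpos)] with n hn
  exact exists_emb (hG.1 n) hn

/-- In a universal sequence the number of edges tends to infinity. -/
theorem tendsto_e {G : ℕ → OGraph} (hG : Universal G) :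
    Tendsto (fun n => ((G n).e : ℝ)) atTop atTop := by
  apply tendsto_natCast_atTop_atTop.comp
  rw [tendsto_atTop]
  intro m
  filter_upwards [eventually_complete hG m] with n hn
  obtain ⟨φ⟩ := hn
  exact (complete_e m).trans (emb_e_le φ)

/-! ### Packings -/

noncomputable instance (H G : OGraph) : Fintype (Emb H G) := by
  classical
  unfold Emb
  infer_instance

/-- A large family of edge-disjoint copies. -/
theorem exists_packing {H G : OGraph} (hH : 0 < H.e) (hG : 1 ≤ G.e) {δ : ℝ}
    (h : rho H G < 1 - δ) :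
    ∃ P : Finset (Emb H G), (∀ φ ∈ P, ∀ ψ ∈ P, φ ≠ ψ → Disjoint φ.image ψ.image) ∧
      δ * G.e ≤ P.card * H.e := by
  classical
  obtain ⟨P, hP, hmax⟩ := Finset.exists_max_image
    ((Finset.univ : Finset (Finset (Emb H G))).filter
      fun P => ∀ φ ∈ P, ∀ ψ ∈ P, φ ≠ ψ → Disjoint φ.image ψ.image)
    (fun P => P.card) ⟨∅, by simp⟩
  rw [Finset.mem_filter] at hP
  refine ⟨P, hP.2, ?_⟩
  set U : Set (Sym2 (Fin G.n)) := ⋃ φ ∈ P, φ.image with hU
  have hUsub : U ⊆ G.graph.edgeSet := by
    intro e he
    rw [hU, Set.mem_iUnion₂] at he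
    obtain ⟨φ, _, h1⟩ := he
    exact φ.image_subset h1
  have hUcard : U.ncard ≤ P.card * H.e := by
    have h1 : U.ncard ≤ ∑ φ ∈ P, φ.image.ncard := by
      rw [hU]
      exact Finset.set_ncard_biUnion_le P _
    refine h1.trans ?_
    rw [Finset.sum_congr rfl fun φ _ => φ.ncard_image, Finset.sum_const, smul_eq_mul]
  -- the remaining graph
  let G' : G.graph.Subgraph := (⊤ : G.graph.Subgraph).deleteEdges U
  have hfree : IsFree H G G' := by
    rintro ⟨φ, h1, _, h3⟩
    have h3' : ∀ u v, H.graph.Adj u v → G.graph.Adj (φ u) (φ v) ∧ s(φ u, φ v) ∉ U := by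
      intro u v huv
      have := h3 u v huv
      simpa [G', SimpleGraph.Subgraph.deleteEdges_adj] using this
    let ψ : Emb H G := ⟨φ, h1, fun u v huv => (h3' u v huv).1⟩
    have hdis : ∀ χ ∈ P, Disjoint ψ.image χ.image := by
      intro χ hχ
      rw [Set.disjoint_left]
      rintro e ⟨f, hf, rfl⟩ h2
      induction f with
      | h a b =>
      apply (h3' a b hf).2
      rw [hU, Set.mem_iUnion₂]
      exact ⟨χ, hχ, h2⟩
    have hne : ψ.image.Nonempty := by
      rw [← Set.ncard_pos (Set.toFinite _), ψ.ncard_image]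
      exact hH
    have hnot : ψ ∉ P := by
      intro hmem
      have := hdis ψ hmem
      exact hne.ne_empty (by simpa using this)
    have hle := hmax (insert ψ P) (by
      rw [Finset.mem_filter]
      refine ⟨Finset.mem_univ _, ?_⟩
      intro α hα β hβ hab
      rw [Finset.mem_insert] at hα hβ
      rcases hα with rfl | hα
      · rcases hβ with rfl | hβ
        · exact absurd rfl hab
        · exact hdis β hβ
      · rcases hβ with rfl | hβ
        · exact (hdis α hα).symm
        · exact hP.2 α hα β hβ hab)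
    rw [Finset.card_insert_of_notMem hnot] at hle
    omega
  have hG' : G'.edgeSet = G.graph.edgeSet \ U := by
    ext e
    induction e with
    | h a b =>
    simp [G', SimpleGraph.Subgraph.mem_edgeSet, SimpleGraph.Subgraph.deleteEdges_adj]
  have h1 := le_rho G' hfree
  have h2 : G'.edgeSet.ncard + U.ncard = G.e := by
    rw [hG']
    exact Set.ncard_sdiff_add_ncard_of_subset hUsub (Set.toFinite _)
  have hepos : (0 : ℝ) < G.e := by exact_mod_cast hG
  have h3 : (G'.edgeSet.ncard : ℝ) < (1 - δ) * G.e := by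
    rw [← div_lt_iff₀ hepos]
    exact lt_of_le_of_lt h1 h
  have h4 : (G'.edgeSet.ncard : ℝ) + U.ncard = G.e := by exact_mod_cast h2
  have h5 : (U.ncard : ℝ) ≤ P.card * H.e := by exact_mod_cast hUcard
  linarith

theorem hitProb_nonneg {H G : OGraph} (Φ : PMF (Emb H G)) (e : Sym2 (Fin G.n)) :
    0 ≤ hitProb Φ e := ENNReal.toReal_nonneg

theorem maxProb_nonneg {H G : OGraph} (Φ : PMF (Emb H G)) : 0 ≤ maxProb Φ := by
  apply Real.sSup_nonneg
  rintro x ⟨e, _, rfl⟩
  exact hitProb_nonneg Φ e

/-- The uniform random member of a family of edge-disjoint copies. -/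
theorem exists_uniform {H G : OGraph} (hH : 0 < H.e) (hG : 1 ≤ G.e) {δ : ℝ} (hδ : 0 < δ)
    (h : rho H G < 1 - δ) :
    ∃ Φ : PMF (Emb H G), maxProb Φ ≤ (H.e / δ) / G.e := by
  classical
  obtain ⟨P, hP, hcard⟩ := exists_packing hH hG h
  have hepos : (0 : ℝ) < G.e := by exact_mod_cast hG
  have hHpos : (0 : ℝ) < H.e := by exact_mod_cast hH
  have hPpos : (0 : ℝ) < P.card := by
    by_contra hcon
    have h0 : (P.card : ℝ) = 0 := le_antisymm (not_lt.1 hcon) (by positivity)
    rw [h0, zero_mul] at hcard
    have : 0 < δ * G.e := by positivity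
    linarith
  have hne : P.Nonempty := by
    rw [← Finset.card_pos]
    exact_mod_cast hPpos
  refine ⟨PMF.uniformOfFinset P hne, ?_⟩
  apply Real.sSup_le _ (by positivity)
  rintro x ⟨e, _, rfl⟩
  have h1 : hitProb (PMF.uniformOfFinset P hne) e ≤ 1 / P.card := by
    unfold hitProb
    rw [PMF.toOuterMeasure_uniformOfFinset_apply]
    have hle : (P.filter fun φ => φ ∈ {φ : Emb H G | e ∈ φ.image}).card ≤ 1 := by
      rw [Finset.card_le_one]
      intro φ hφ ψ hψ
      rw [Finset.mem_filter] at hφ hψ
      by_contra hne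
      exact Set.disjoint_left.1 (hP φ hφ.1 ψ hψ.1 hne) hφ.2 hψ.2
    rw [ENNReal.toReal_div, ENNReal.toReal_natCast, ENNReal.toReal_natCast]
    gcongr
    exact_mod_cast hle
  refine h1.trans ?_
  rw [div_div, div_le_div_iff₀ hPpos (by positivity)]
  linarith

/-- **Theorem.** Let `(G_n)` be a universal sequence of ordered graphs and `H` an ordered graph.
Then `e(G_n)` tends to infinity, and there are random embeddings `Φ_n : H → G_n` for all large `n`
such that the largest probability with which an edge of `G_n` is hit is at most `C / e(G_n)` for a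
constant `C`; in particular the difference between this probability and `e(H) / e(G_n)` tends to
zero. -/
theorem result (G : ℕ → OGraph) (hG : Universal G) (H : OGraph) :
    Tendsto (fun n => ((G n).e : ℝ)) atTop atTop ∧
    ∃ (n₀ : ℕ) (Φ : ∀ n, n₀ ≤ n → PMF (Emb H (G n))),
      (∃ C : ℝ, ∀ n (h : n₀ ≤ n), maxProb (Φ n h) ≤ C / (G n).e) ∧
      Tendsto (fun n => if h : n₀ ≤ n then maxProb (Φ n h) - (H.e : ℝ) / (G n).e else 0)
        atTop (𝓝 0) := by
  have hlim := tendsto_e hG
  refine ⟨hlim, ?_⟩
  -- it is enough to bound the largest probability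
  have key : ∃ (C : ℝ) (n₀ : ℕ), ∀ n, n₀ ≤ n → ∃ Φ : PMF (Emb H (G n)),
      maxProb Φ ≤ C / (G n).e := by
    rcases Nat.eq_zero_or_pos H.e with hH | hH
    · obtain ⟨n₀, hn₀⟩ := eventually_atTop.1 (eventually_complete hG H.n)
      refine ⟨0, n₀, fun n hn => ?_⟩
      obtain ⟨φ⟩ := hn₀ n hn
      have hle : H.n ≤ (G n).n := by
        have := emb_n_le φ
        simp only [complete] at this
        omega
      have hnoedge : H.graph.edgeSet = ∅ := by
        rwa [OGraph.e, Set.ncard_eq_zero (Set.toFinite _)] at hH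
      let ψ : Emb H (G n) := ⟨Fin.castLE hle, fun a b hab => hab, fun u v huv => by
        exfalso
        have : s(u, v) ∈ H.graph.edgeSet := huv
        rw [hnoedge] at this
        exact this⟩
      refine ⟨PMF.pure ψ, ?_⟩
      apply Real.sSup_le _ (by simp)
      rintro x ⟨e, _, rfl⟩
      have himg : ∀ χ : Emb H (G n), χ.image = ∅ := by
        intro χ
        simp [Emb.image, hnoedge]
      simp [hitProb, himg]
    · have hlt := relDensity_lt_one hH
      set δ : ℝ := (1 - relDensity H) / 2 with hδ
      have hδpos : 0 < δ := by rw [hδ]; linarith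
      have hev := (hG.2 H).eventually_lt_const (show relDensity H < 1 - δ by rw [hδ]; linarith)
      obtain ⟨n₀, hn₀⟩ := eventually_atTop.1 hev
      exact ⟨H.e / δ, n₀, fun n hn => exists_uniform hH (hG.1 n) hδpos (hn₀ n hn)⟩
  obtain ⟨C, n₀, hC⟩ := key
  choose Φ hΦ using hC
  refine ⟨n₀, Φ, ⟨C, hΦ⟩, ?_⟩
  have hb : Tendsto (fun n => (max C H.e) / ((G n).e : ℝ)) atTop (𝓝 0) :=
    hlim.const_div_atTop _
  apply squeeze_zero_norm' _ hb
  filter_upwards [eventually_ge_atTop n₀] with n hn
  rw [dif_pos hn, Real.norm_eq_abs, abs_le]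
  have h1 := maxProb_nonneg (Φ n hn)
  have h2 := hΦ n hn
  have h3 : (0 : ℝ) ≤ (H.e : ℝ) / (G n).e := by positivity
  have h4 : (H.e : ℝ) / (G n).e ≤ (max C H.e) / (G n).e := by gcongr; exact le_max_right _ _
  have h5 : C / ((G n).e : ℝ) ≤ (max C H.e) / (G n).e := by gcongr; exact le_max_left _ _
  constructor <;> linarith

end Pool.Agent.Results.MP_37b92f_co.UniversalEmbeddings
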